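import Pool.Agent.Q121.CS.Basic

set_option autoImplicit false
set_option linter.unusedSectionVars false

/-! Sparse sets of representatives in groups of cardinality less than aleph omega. -/

namespace Pool.Agent.Q121.CS

open scoped Pointwise

universe u

section

variable {G : Type u} [Group G]

/-- the bound `b m` is `o(2 ^ m)` -/
def LittleO (b : ℕ → ℕ) : Prop := ∀ k : ℕ, ∃ m₀, ∀ m, m₀ ≤ m → k * b m ≤ 2 ^ m

/-- the next bound -/
def next (b : ℕ → ℕ) : ℕ → ℕ
  | 0 => 1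
  | m + 1 => b (m + 1) + next b m

theorem one_le_next (b : ℕ → ℕ) (m : ℕ) : 1 ≤ next b m := by
  induction m with
  | zero => exact le_rfl
  | succ m ih => exact ih.trans (Nat.le_add_left _ _)

theorem LittleO.next {b : ℕ → ℕ} (hb : LittleO b) : LittleO (next b) := by
  intro k
  obtain ⟨m₀, hm₀⟩ := hb (4 * k)
  have h1 : ∀ j, 2 * (k * CS.next b (m₀ + j)) ≤ 2 * (k * CS.next b m₀) + 2 ^ (m₀ + j) := by
    intro j
    induction j with
    | zero => simp
    | succ j ih =>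
      have h2 : CS.next b (m₀ + (j + 1)) = b (m₀ + j + 1) + CS.next b (m₀ + j) := rfl
      have h3 := hm₀ (m₀ + j + 1) (by omega)
      rw [h2, mul_add]
      have h4 : 4 * k * b (m₀ + j + 1) = 4 * (k * b (m₀ + j + 1)) := by ring
      rw [h4] at h3
      have h5 : 2 ^ (m₀ + (j + 1)) = 2 * 2 ^ (m₀ + j) := by rw [← add_assoc, pow_succ]; ring
      have h6 : 2 ^ (m₀ + j + 1) = 2 * 2 ^ (m₀ + j) := by rw [pow_succ]; ring
      rw [h5]
      rw [h6] at h3
      omega
  refine ⟨m₀ + 2 * (k * CS.next b m₀), fun m hm => ?_⟩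
  obtain ⟨j, rfl⟩ := Nat.exists_eq_add_of_le (show m₀ ≤ m by omega)
  have h2 := h1 j
  have h3 : 2 * (k * CS.next b m₀) < 2 ^ (m₀ + j) := lt_of_le_of_lt (by omega : _ ≤ m₀ + j) Nat.lt_two_pow_self
  omega

theorem littleO_base : LittleO (fun m => 2 ^ (m / 2 + 2)) := by
  intro k
  refine ⟨2 * k + 4, fun m hm => ?_⟩
  have h1 : k ≤ 2 ^ k := Nat.lt_two_pow_self.le
  calc k * 2 ^ (m / 2 + 2) ≤ 2 ^ k * 2 ^ (m / 2 + 2) := Nat.mul_le_mul_right _ h1
    _ = 2 ^ (k + (m / 2 + 2)) := (pow_add _ _ _).symm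
    _ ≤ 2 ^ m := Nat.pow_le_pow_right (by norm_num) (by omega)

/-- sparseness along the orbits of elements of infinite order -/
def Sparse (K : Subgroup G) (S : Set G) (b : ℕ → ℕ) : Prop :=
  ∀ δ ∈ K, (∀ i : ℕ, 0 < i → δ ^ i ≠ 1) → ∀ x ∈ K, ∀ m : ℕ, ∀ E : Finset ℕ,
    (∀ i ∈ E, i < 2 ^ m ∧ δ ^ i * x ∈ S) → E.card ≤ b m

theorem zpow_ne_one {δ : G} (hδ : ∀ i : ℕ, 0 < i → δ ^ i ≠ 1) {z : ℤ} (hz : z ≠ 0) : δ ^ z ≠ 1 := by
  intro h
  rcases Int.natAbs_eq z with h1 | h1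
  · rw [h1, zpow_natCast] at h
    exact hδ _ (Int.natAbs_pos.2 hz) h
  · rw [h1, zpow_neg, inv_eq_one, zpow_natCast] at h
    exact hδ _ (Int.natAbs_pos.2 hz) h

theorem sparse_of_noThree (K : Subgroup G) (S : Set G) (hS : NoThree S) : Sparse K S (fun m => 2 ^ (m / 2 + 2)) := by
  classical
  intro δ _ hδ x _ m E hmem
  have hinj : ∀ i j : ℕ, δ ^ i * x = δ ^ j * x → i = j := by
    intro i j h
    by_contra hne
    have h1 : δ ^ i = δ ^ j := mul_right_cancel h
    apply zpow_ne_one hδ (z := (i : ℤ) - j) (by omega)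
    rw [zpow_sub, zpow_natCast, zpow_natCast, h1, mul_inv_cancel]
  have hcard := Finset.card_le_mul_card_image_of_maps_to (s := E.offDiag) (t := Finset.Icc (-(2 ^ m : ℤ)) (2 ^ m))
    (f := fun p => (p.2 : ℤ) - (p.1 : ℤ)) (by
      rintro ⟨i, j⟩ hp
      rw [Finset.mem_offDiag] at hp
      have h1 := (hmem i hp.1).1
      have h2 := (hmem j hp.2.1).1
      rw [Finset.mem_Icc]
      have h3 : (i : ℤ) < 2 ^ m := by exact_mod_cast h1
      have h4 : (j : ℤ) < 2 ^ m := by exact_mod_cast h2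
      constructor <;> omega) 2 (by
      intro d _
      by_contra hlt
      push Not at hlt
      obtain ⟨⟨i₁, j₁⟩, hp₁, ⟨i₂, j₂⟩, hp₂, ⟨i₃, j₃⟩, hp₃, h12, h13, h23⟩ := Finset.two_lt_card.1 hlt
      rw [Finset.mem_filter, Finset.mem_offDiag] at hp₁ hp₂ hp₃
      obtain ⟨⟨hi₁, hj₁, hne₁⟩, hd₁⟩ := hp₁
      obtain ⟨⟨hi₂, hj₂, hne₂⟩, hd₂⟩ := hp₂
      obtain ⟨⟨hi₃, hj₃, hne₃⟩, hd₃⟩ := hp₃
      simp only at hi₁ hj₁ hne₁ hd₁ hi₂ hj₂ hne₂ hd₂ hi₃ hj₃ hne₃ hd₃
      have hmul : ∀ i j : ℕ, (j : ℤ) - i = d → δ ^ d * (δ ^ i * x) = δ ^ j * x := by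
        intro i j h
        rw [← h, ← mul_assoc, ← zpow_natCast δ i, ← zpow_add, sub_add_cancel, zpow_natCast]
      have e12 : i₁ ≠ i₂ := by
        rintro rfl
        apply h12
        have : j₁ = j₂ := by omega
        rw [this]
      have e13 : i₁ ≠ i₃ := by
        rintro rfl
        apply h13
        have : j₁ = j₃ := by omega
        rw [this]
      have e23 : i₂ ≠ i₃ := by
        rintro rfl
        apply h23
        have : j₂ = j₃ := by omega
        rw [this]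
      refine hS (δ ^ d) (zpow_ne_one hδ (by omega)) _ (hmem _ hi₁).2 _ (hmem _ hi₂).2 _ (hmem _ hi₃).2
        (fun h => e12 (hinj _ _ h)) (fun h => e13 (hinj _ _ h)) (fun h => e23 (hinj _ _ h)) ?_ ?_ ?_
      · rw [hmul _ _ hd₁]
        exact (hmem _ hj₁).2
      · rw [hmul _ _ hd₂]
        exact (hmem _ hj₂).2
      · rw [hmul _ _ hd₃]
        exact (hmem _ hj₃).2)
  rw [Finset.offDiag_card, Int.card_Icc] at hcard
  have h1 : ((2 ^ m : ℤ) + 1 - -(2 ^ m : ℤ)).toNat = 2 * 2 ^ m + 1 := by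
    have : ((2 ^ m : ℤ) + 1 - -(2 ^ m : ℤ)) = ((2 * 2 ^ m + 1 : ℕ) : ℤ) := by push_cast; ring
    rw [this, Int.toNat_natCast]
  rw [h1] at hcard
  by_contra hlt
  push Not at hlt
  set t := 2 ^ (m / 2 + 2) with ht
  have h2 : 8 * 2 ^ m ≤ t * t := by
    rw [ht, ← pow_add]
    have : 8 * 2 ^ m = 2 ^ (m + 3) := by rw [pow_add]; ring
    rw [this]
    exact Nat.pow_le_pow_right (by norm_num) (by omega)
  have h3 : t * t ≤ E.card * E.card - E.card := by
    obtain ⟨c, hc⟩ : ∃ c, E.card = t + 1 + c := ⟨E.card - (t + 1), by omega⟩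
    rw [hc]
    have : (t + 1 + c) * (t + 1 + c) = (t + 1 + c) * (t + c) + (t + 1 + c) := by ring
    rw [this, Nat.add_sub_cancel]
    exact Nat.mul_le_mul (by omega) (by omega)
  have h4 : 1 ≤ 2 ^ m := Nat.one_le_two_pow
  omega

/-- the induction step for the bound -/
theorem sparse_step {I : Type u} [LinearOrder I] (K : Subgroup G) (Kf : I → Subgroup G) (r : G → I)
    (hr : ∀ g ∈ K, ∀ i, g ∈ Kf i ↔ r g ≤ i) (b : ℕ → ℕ) (S : I → Set G)
    (hS : ∀ i, Sparse (Kf i) (S i) b) : Sparse K {g | g ∈ K ∧ g ∈ S (r g)} (next b) := by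
  classical
  -- ranks
  have hrm : ∀ g ∈ K, g ∈ Kf (r g) := fun g hg => (hr g hg _).2 le_rfl
  have hrmul : ∀ g ∈ K, ∀ h ∈ K, ∀ ξ, r g < ξ → r h < ξ → r (g * h) < ξ := by
    intro g hg h hh ξ h1 h2
    have h3 : g * h ∈ Kf (max (r g) (r h)) :=
      mul_mem ((hr g hg _).2 (le_max_left _ _)) ((hr h hh _).2 (le_max_right _ _))
    exact ((hr _ (mul_mem hg hh) _).1 h3).trans_lt (max_lt h1 h2)
  have hrinv : ∀ g ∈ K, ∀ ξ, r g < ξ → r g⁻¹ < ξ := by
    intro g hg ξ h1
    exact ((hr _ (inv_mem hg) _).1 (inv_mem (hrm g hg))).trans_lt h1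
  have hrpow : ∀ g ∈ K, ∀ ξ, r g < ξ → ∀ q : ℕ, r (g ^ q) < ξ := by
    intro g hg ξ h1 q
    exact ((hr _ (pow_mem hg q) _).1 (pow_mem (hrm g hg) q)).trans_lt h1
  suffices H : ∀ m : ℕ, ∀ δ ∈ K, (∀ i : ℕ, 0 < i → δ ^ i ≠ 1) → ∀ x ∈ K, ∀ E : Finset ℕ,
      (∀ i ∈ E, i < 2 ^ m ∧ δ ^ i * x ∈ {g | g ∈ K ∧ g ∈ S (r g)}) → E.card ≤ next b m from
    fun δ hδ hδ' x hx m => H m δ hδ hδ' x hx
  intro m
  induction m with
  | zero =>
    intro δ _ _ x _ E hE
    have h1 : E ⊆ {0} := by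
      intro i hi
      have := (hE i hi).1
      rw [Finset.mem_singleton]
      simpa using this
    exact (Finset.card_le_card h1).trans (by simp [next])
  | succ m ih =>
    intro δ hδ hδ' x hx E hE
    have hmem : ∀ i : ℕ, δ ^ i * x ∈ K := fun i => mul_mem (pow_mem hδ i) hx
    obtain ⟨i₁, hi₁, hmax⟩ := Finset.exists_max_image (Finset.range (2 ^ (m + 1))) (fun i => r (δ ^ i * x))
      ⟨0, Finset.mem_range.2 (by positivity)⟩
    set ξ := r (δ ^ i₁ * x) with hξ
    have h2 : 1 < 2 ^ (m + 1) := Nat.one_lt_two_pow (Nat.succ_ne_zero m)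
    -- `x` and `δ` have rank at most `ξ`
    have hx' : x ∈ Kf ξ := by
      rw [hr x hx]
      have := hmax 0 (Finset.mem_range.2 (by omega))
      simpa using this
    have hδx : δ * x ∈ Kf ξ := by
      rw [hr _ (mul_mem hδ hx)]
      have := hmax 1 (Finset.mem_range.2 h2)
      simpa using this
    have hδξ : δ ∈ Kf ξ := by
      have := mul_mem hδx (inv_mem hx')
      rwa [mul_inv_cancel_right] at this
    -- the top part
    have htop : (E.filter (fun i => r (δ ^ i * x) = ξ)).card ≤ b (m + 1) := by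
      refine hS ξ δ hδξ hδ' x hx' (m + 1) _ ?_
      intro i hi
      rw [Finset.mem_filter] at hi
      obtain ⟨h3, h5⟩ := hi
      obtain ⟨h6, _, h4⟩ := hE i h3
      rw [h5] at h4
      exact ⟨h6, h4⟩
    -- the low part
    have hlow : (E.filter (fun i => r (δ ^ i * x) < ξ)).card ≤ next b m := by
      by_cases hex : ∃ i, i < 2 ^ (m + 1) ∧ r (δ ^ i * x) < ξ
      swap
      · have : E.filter (fun i => r (δ ^ i * x) < ξ) = ∅ := by
          rw [Finset.filter_eq_empty_iff]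
          intro i hi h3
          exact hex ⟨i, (hE i hi).1, h3⟩
        rw [this]
        simp
      obtain ⟨hi₀, hi₀'⟩ := Nat.find_spec hex
      have hmin : ∀ i, i < 2 ^ (m + 1) → r (δ ^ i * x) < ξ → Nat.find hex ≤ i := fun i h3 h4 =>
        Nat.find_min' hex ⟨h3, h4⟩
      generalize Nat.find hex = i₀ at hi₀ hi₀' hmin
      have hdiff : ∀ i, i < 2 ^ (m + 1) → r (δ ^ i * x) < ξ → r (δ ^ (i - i₀)) < ξ := by
        intro i h3 h4
        have h5 := hrmul _ (hmem i) _ (inv_mem (hmem i₀)) ξ h4 (hrinv _ (hmem i₀) _ hi₀')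
        have h6 : δ ^ i * x * (δ ^ i₀ * x)⁻¹ = δ ^ (i - i₀) := by
          have h7 : δ ^ i = δ ^ (i - i₀) * δ ^ i₀ := by
            rw [← pow_add, Nat.sub_add_cancel (hmin i h3 h4)]
          rw [h7]
          group
        rwa [h6] at h5
      by_cases hD : ∃ n, 0 < n ∧ r (δ ^ n) < ξ
      swap
      · -- only `i₀`
        refine (Finset.card_le_card (t := {i₀}) ?_).trans ?_
        · intro i hi
          rw [Finset.mem_filter] at hi
          rw [Finset.mem_singleton]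
          by_contra hne
          have h3 := hmin i (hE i hi.1).1 hi.2
          exact hD ⟨i - i₀, by omega, hdiff i (hE i hi.1).1 hi.2⟩
        · rw [Finset.card_singleton]
          exact one_le_next b m
      obtain ⟨hn, hn'⟩ := Nat.find_spec hD
      have hnmin : ∀ d, 0 < d → r (δ ^ d) < ξ → Nat.find hD ≤ d := fun d h3 h4 => Nat.find_min' hD ⟨h3, h4⟩
      generalize Nat.find hD = n at hn hn' hnmin
      have hn1 : n ≠ 1 := by
        rintro rfl
        rw [pow_one] at hn'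
        -- then all have rank less than `ξ`
        have h3 : r (δ ^ i₁ * x) < ξ := by
          have h4 : δ ^ i₁ * x = δ ^ i₁ * (δ ^ i₀)⁻¹ * (δ ^ i₀ * x) := by group
          rw [h4]
          exact hrmul _ (mul_mem (pow_mem hδ _) (inv_mem (pow_mem hδ _))) _ (hmem i₀) _
            (hrmul _ (pow_mem hδ _) _ (inv_mem (pow_mem hδ _)) _ (hrpow _ hδ _ hn' _)
              (hrinv _ (pow_mem hδ _) _ (hrpow _ hδ _ hn' _))) hi₀'
        exact absurd h3 (lt_irrefl _)
      have hdvd : ∀ d, r (δ ^ d) < ξ → n ∣ d := by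
        intro d hd
        rw [Nat.dvd_iff_mod_eq_zero]
        by_contra hne
        have h3 : r (δ ^ (d % n)) < ξ := by
          have h4 : δ ^ (d % n) = ((δ ^ n) ^ (d / n))⁻¹ * δ ^ d := by
            have h5 : δ ^ d = (δ ^ n) ^ (d / n) * δ ^ (d % n) := by
              rw [← pow_mul, ← pow_add, Nat.div_add_mod]
            rw [h5]
            group
          rw [h4]
          exact hrmul _ (inv_mem (pow_mem (pow_mem hδ _) _)) _ (pow_mem hδ _) _
            (hrinv _ (pow_mem (pow_mem hδ _) _) _ (hrpow _ (pow_mem hδ _) _ hn' _)) hd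
        have h4 := hnmin _ (Nat.pos_of_ne_zero hne) h3
        have h5 := Nat.mod_lt d hn
        omega
      have hinj : Set.InjOn (fun i => (i - i₀) / n) (E.filter (fun i => r (δ ^ i * x) < ξ)) := by
        intro i hi j hj hij
        rw [Finset.mem_coe, Finset.mem_filter] at hi hj
        obtain ⟨q, hq⟩ := hdvd _ (hdiff i (hE i hi.1).1 hi.2)
        obtain ⟨q', hq'⟩ := hdvd _ (hdiff j (hE j hj.1).1 hj.2)
        have h6 := hmin i (hE i hi.1).1 hi.2
        have h7 := hmin j (hE j hj.1).1 hj.2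
        have hij' : (i - i₀) / n = (j - i₀) / n := hij
        rw [hq, hq', Nat.mul_div_cancel_left _ hn, Nat.mul_div_cancel_left _ hn] at hij'
        rw [hij'] at hq
        omega
      rw [← Finset.card_image_of_injOn hinj]
      refine ih (δ ^ n) (pow_mem hδ n) (fun i hi => by
        rw [← pow_mul]
        exact hδ' _ (Nat.mul_pos hn hi)) (δ ^ i₀ * x) (hmem i₀) _ ?_
      intro j hj
      obtain ⟨i, hi, rfl⟩ := Finset.mem_image.1 hj
      rw [Finset.mem_filter] at hi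
      obtain ⟨h3, h5⟩ := hi
      obtain ⟨h3', h4⟩ := hE i h3
      obtain ⟨q, hq⟩ := hdvd _ (hdiff i h3' h5)
      have h6 := hmin i h3' h5
      have h7 : (i - i₀) / n = q := by rw [hq, Nat.mul_div_cancel_left _ hn]
      constructor
      · show (i - i₀) / n < 2 ^ m
        rw [h7]
        have h8 : 2 ≤ n := by omega
        have h9 : 2 * q ≤ n * q := Nat.mul_le_mul_right _ h8
        have h10 : 2 ^ (m + 1) = 2 * 2 ^ m := by rw [pow_succ]; ring
        omega
      · show (δ ^ n) ^ ((i - i₀) / n) * (δ ^ i₀ * x) ∈ _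
        rw [h7, ← pow_mul, ← hq, ← mul_assoc, ← pow_add, Nat.sub_add_cancel h6]
        exact h4
    have hsplit : E ⊆ E.filter (fun i => r (δ ^ i * x) = ξ) ∪ E.filter (fun i => r (δ ^ i * x) < ξ) := by
      intro i hi
      rw [Finset.mem_union, Finset.mem_filter, Finset.mem_filter]
      rcases (hmax i (Finset.mem_range.2 (hE i hi).1)).lt_or_eq with h3 | h3
      · exact Or.inr ⟨hi, h3⟩
      · exact Or.inl ⟨hi, h3⟩
    calc _ ≤ _ := Finset.card_le_card hsplit
      _ ≤ _ := Finset.card_union_le _ _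
      _ ≤ b (m + 1) + next b m := Nat.add_le_add htop hlow
      _ = next b (m + 1) := rfl

end

end Pool.Agent.Q121.CS
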