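import Mathlib

set_option autoImplicit false
set_option linter.unusedSectionVars false

/-! LargeSet and small subsets of groups; sparse sets of representatives. -/

namespace Pool.Agent.Q121.CS

open scoped Pointwise

universe u

section

variable {G : Type u} [Group G]

/-- `A` is large: `G = F A` for some finite set `F`. -/
def LargeSet (A : Set G) : Prop := ∃ F : Set G, F.Finite ∧ F * A = Set.univ

/-- `A` is small: `L \ A` is large for every large `L`. -/
def SmallSet (A : Set G) : Prop := ∀ L : Set G, LargeSet L → LargeSet (L \ A)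

theorem small_of (S : Set G) (h : ∀ F : Finset G, ∃ F' : Finset G, ∀ g, ∃ x ∈ F', ∀ f ∈ F,
    f⁻¹ * (x * g) ∉ S) : SmallSet S := by
  classical
  rintro L ⟨F, hF, hFL⟩
  obtain ⟨F', hF'⟩ := h hF.toFinset
  refine ⟨(F' : Set G)⁻¹ * F, (F'.finite_toSet.inv).mul hF, ?_⟩
  rw [Set.eq_univ_iff_forall]
  intro g
  obtain ⟨x, hx, hx'⟩ := hF' g
  have h1 : x * g ∈ F * L := by rw [hFL]; exact Set.mem_univ _
  obtain ⟨f, hf, l, hl, hfl⟩ := Set.mem_mul.1 h1
  have h2 : l = f⁻¹ * (x * g) := by rw [← hfl]; group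
  have h3 : l ∉ S := by
    rw [h2]
    exact hx' f (hF.mem_toFinset.2 hf)
  refine Set.mem_mul.2 ⟨x⁻¹ * f, Set.mem_mul.2 ⟨x⁻¹, by simpa using hx, f, hf, rfl⟩, l, ⟨hl, h3⟩, ?_⟩
  rw [mul_assoc, hfl]
  group

theorem exists_seq (O : ℕ → Set G) (hO : ∀ n, (O n).Infinite) :
    ∃ s : ℕ → G, (∀ n, s n ∈ O n) ∧ ∀ n i j m, i < n → j < n → m < n → s n ≠ s j * (s i)⁻¹ * s m := by
  classical
  have hc : ∀ (n : ℕ) (T : Finset G), ∃ x ∈ O n, x ∉ T * T⁻¹ * T := by
    intro n T
    exact (hO n).exists_notMem_finset _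
  choose c hc1 hc2 using hc
  let T : ℕ → Finset G := fun n => Nat.rec ∅ (fun n T => insert (c n T) T) n
  have hT : ∀ n, T (n + 1) = insert (c n (T n)) (T n) := fun n => rfl
  have hmono : Monotone T := monotone_nat_of_le_succ fun n => by
    rw [hT]
    exact Finset.subset_insert _ _
  have hmem : ∀ i n, i < n → c i (T i) ∈ T n := by
    intro i n hi
    have h1 : T (i + 1) ⊆ T n := hmono hi
    apply h1
    rw [hT]
    exact Finset.mem_insert_self _ _
  refine ⟨fun n => c n (T n), fun n => hc1 n (T n), fun n i j m hi hj hm h => ?_⟩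
  apply hc2 n (T n)
  have h' : c n (T n) = c j (T j) * (c i (T i))⁻¹ * c m (T m) := h
  rw [h']
  exact Finset.mul_mem_mul (Finset.mul_mem_mul (hmem j n hj) (Finset.inv_mem_inv (hmem i n hi))) (hmem m n hm)

/-- no difference occurs three times -/
def NoThree (S : Set G) : Prop :=
  ∀ δ : G, δ ≠ 1 → ∀ s₁ ∈ S, ∀ s₂ ∈ S, ∀ s₃ ∈ S, s₁ ≠ s₂ → s₁ ≠ s₃ → s₂ ≠ s₃ →
    δ * s₁ ∈ S → δ * s₂ ∈ S → δ * s₃ ∈ S → False

theorem noThree_range (s : ℕ → G)
    (hs : ∀ n i j m, i < n → j < n → m < n → s n ≠ s j * (s i)⁻¹ * s m) : NoThree (Set.range s) := by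
  have hinj : ∀ i j, s i = s j → i = j := by
    intro i j h
    by_contra hne
    rcases lt_or_gt_of_ne hne with h1 | h1
    · exact hs j i i i h1 h1 h1 (by rw [← h]; group)
    · exact hs i j j j h1 h1 h1 (by rw [h]; group)
  -- two pairs
  have two : ∀ (δ : G), δ ≠ 1 → ∀ i j k l, δ * s i = s j → δ * s k = s l → i ≠ k →
      (j = k ∧ i < j ∧ l < j) ∨ (i = l ∧ j < i ∧ k < i) := by
    intro δ hδ i j k l h1 h2 hik
    have hd : δ = s j * (s i)⁻¹ := by rw [← h1]; group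
    have hd' : δ = s l * (s k)⁻¹ := by rw [← h2]; group
    have e : s j * (s i)⁻¹ = s l * (s k)⁻¹ := by rw [← hd, hd']
    have e1 : s j = s l * (s k)⁻¹ * s i := by rw [← e]; group
    have e2 : s i = s k * (s l)⁻¹ * s j := by
      rw [e1]; group
    have e3 : s l = s j * (s i)⁻¹ * s k := by rw [e]; group
    have e4 : s k = s i * (s j)⁻¹ * s l := by
      rw [e3]; group
    have n1 : ¬ (i < j ∧ k < j ∧ l < j) := fun h => hs j k l i h.2.1 h.2.2 h.1 e1
    have n2 : ¬ (j < i ∧ k < i ∧ l < i) := fun h => hs i l k j h.2.2 h.2.1 h.1 e2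
    have n3 : ¬ (i < l ∧ j < l ∧ k < l) := fun h => hs l i j k h.1 h.2.1 h.2.2 e3
    have n4 : ¬ (i < k ∧ j < k ∧ l < k) := fun h => hs k j i l h.2.1 h.1 h.2.2 e4
    have hij : i ≠ j := by
      rintro rfl
      apply hδ
      rw [hd]
      group
    have hkl : k ≠ l := by
      rintro rfl
      apply hδ
      rw [hd']
      group
    have hjl : j ≠ l := by
      rintro rfl
      apply hik
      apply hinj
      have : δ * s i = δ * s k := by rw [h1, h2]
      exact mul_left_cancel this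
    omega
  rintro δ hδ _ ⟨i₁, rfl⟩ _ ⟨i₂, rfl⟩ _ ⟨i₃, rfl⟩ h12 h13 h23 ⟨j₁, h1⟩ ⟨j₂, h2⟩ ⟨j₃, h3⟩
  have d12 : i₁ ≠ i₂ := fun h => h12 (by rw [h])
  have d13 : i₁ ≠ i₃ := fun h => h13 (by rw [h])
  have d23 : i₂ ≠ i₃ := fun h => h23 (by rw [h])
  have t12 := two δ hδ i₁ j₁ i₂ j₂ h1.symm h2.symm d12
  have t13 := two δ hδ i₁ j₁ i₃ j₃ h1.symm h3.symm d13
  have t23 := two δ hδ i₂ j₂ i₃ j₃ h2.symm h3.symm d23
  omega

/-- a sparse set of representatives in a countable set -/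
theorem exists_layer (H : Set G) (hH : H.Infinite) (X : Set G) (hX : X.Countable)
    (hHX : ∀ h ∈ H, ∀ g ∈ X, h * g ∈ X) :
    ∃ S ⊆ X, (∀ g ∈ X, ∃ h ∈ H, h * g ∈ S) ∧ NoThree S := by
  rcases X.eq_empty_or_nonempty with rfl | hne
  · exact ⟨∅, Set.Subset.rfl, fun g hg => absurd hg (Set.notMem_empty g),
      fun δ hδ s hs => absurd hs (Set.notMem_empty s)⟩
  · obtain ⟨x, hx⟩ := hX.exists_eq_range hne
    obtain ⟨s, hs1, hs2⟩ := exists_seq (fun n => (fun h => h * x n) '' H)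
      (fun n => hH.image (fun a _ b _ h => mul_right_cancel h))
    refine ⟨Set.range s, ?_, ?_, noThree_range s hs2⟩
    · rintro _ ⟨n, rfl⟩
      obtain ⟨h, hh, hh'⟩ := hs1 n
      rw [← hh']
      apply hHX h hh
      rw [hx]
      exact ⟨n, rfl⟩
    · intro g hg
      rw [hx] at hg
      obtain ⟨n, rfl⟩ := hg
      obtain ⟨h, hh, hh'⟩ := hs1 n
      exact ⟨h, hh, n, hh'.symm⟩

theorem countable_closure (S : Set G) (hS : S.Countable) : (Subgroup.closure S : Set G).Countable := by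
  have : Countable S := hS.to_subtype
  rw [FreeGroup.closure_eq_range, MonoidHom.coe_range]
  exact Set.countable_range _

end

end Pool.Agent.Q121.CS
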