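import Pool.Agent.Q121.CS.Fin

set_option autoImplicit false
set_option linter.unusedSectionVars false

/-! Product sets of several factors, and groups of cardinality less than aleph omega. -/

namespace Pool.Agent.Q121.CS

open scoped Pointwise Cardinal

universe u

section

variable {G : Type u} [Group G]

/-- `B` contains a product `X₁ X₂ ⋯ X_l b` with `|X_i| ≥ t`. -/
def Box : ℕ → ℕ → Set G → Prop
  | 0, _, B => B.Nonempty
  | l + 1, t, B => ∃ X : Finset G, t ≤ X.card ∧ ∃ B' : Set G, Box l t B' ∧ ∀ x ∈ X, ∀ b ∈ B', x * b ∈ B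

theorem Box.mono {l t : ℕ} {B C : Set G} (h : B ⊆ C) (hB : Box l t B) : Box l t C := by
  cases l with
  | zero => exact Set.Nonempty.mono h hB
  | succ l =>
    obtain ⟨X, hX, B', hB', hXB⟩ := hB
    exact ⟨X, hX, B', hB', fun x hx b hb => h (hXB x hx b hb)⟩

theorem Box.anti {l t t' : ℕ} (h : t' ≤ t) : ∀ {B : Set G}, Box l t B → Box l t' B := by
  induction l with
  | zero => exact fun hB => hB
  | succ l ih =>
    rintro B ⟨X, hX, B', hB', hXB⟩
    exact ⟨X, h.trans hX, B', ih hB', hXB⟩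

theorem Box.nonempty {l t : ℕ} (ht : 1 ≤ t) : ∀ {B : Set G}, Box l t B → B.Nonempty := by
  induction l with
  | zero => exact fun hB => hB
  | succ l ih =>
    rintro B ⟨X, hX, B', hB', hXB⟩
    obtain ⟨b, hb⟩ := ih hB'
    obtain ⟨x, hx⟩ := Finset.card_pos.1 (lt_of_lt_of_le (Nat.lt_of_succ_le ht) hX)
    exact ⟨x * b, hXB x hx b hb⟩

theorem Box.trans (p q : G) {l t : ℕ} : ∀ {B : Set G}, Box l t B → Box l t ((fun b => p * b * q) '' B) := by
  classical
  induction l with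
  | zero => exact fun hB => Set.Nonempty.image _ hB
  | succ l ih =>
    rintro B ⟨X, hX, B', hB', hXB⟩
    refine ⟨X.image (fun x => p * x * p⁻¹), ?_, _, ih hB', ?_⟩
    · rw [Finset.card_image_of_injective _ (fun a c h => mul_left_cancel (mul_right_cancel h))]
      exact hX
    · rintro _ hy _ ⟨b, hb, rfl⟩
      obtain ⟨x, hx, rfl⟩ := Finset.mem_image.1 hy
      refine ⟨x * b, hXB x hx b hb, ?_⟩
      group

/-- product Ramsey theorem -/
theorem color (l : ℕ) : ∀ k t' : ℕ, ∃ t, ∀ B : Set G, Box l t B → ∀ χ : G → Fin k,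
    ∃ c, Box l t' {b | b ∈ B ∧ χ b = c} := by
  classical
  induction l with
  | zero =>
    intro k t'
    refine ⟨0, fun B hB χ => ?_⟩
    obtain ⟨b, hb⟩ := hB
    exact ⟨χ b, b, hb, rfl⟩
  | succ l ih =>
    intro k t'
    obtain ⟨t₂, ht₂⟩ := ih (k ^ (k * t')) t'
    refine ⟨max (k * t') t₂, fun B hB χ => ?_⟩
    obtain ⟨X, hX, B', hB', hXB⟩ := hB
    obtain ⟨X₁, hX₁, hX₁c⟩ := Finset.exists_subset_card_eq ((le_max_left _ _).trans hX)
    have hcard : Fintype.card (X₁ → Fin k) = k ^ (k * t') := by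
      rw [Fintype.card_fun, Fintype.card_fin, Fintype.card_coe, hX₁c]
    let e : (X₁ → Fin k) ≃ Fin (k ^ (k * t')) := Fintype.equivFinOfCardEq hcard
    obtain ⟨c', hc'⟩ := ht₂ B' (hB'.anti (le_max_right _ _)) (fun b => e (fun x => χ (x * b)))
    let w : G → Fin k := fun x => if h : x ∈ X₁ then e.symm c' ⟨x, h⟩ else χ 1
    obtain ⟨c, -, hc⟩ := Finset.exists_le_card_fiber_of_mul_le_card_of_maps_to (s := X₁)
      (t := (Finset.univ : Finset (Fin k))) (f := w) (n := t') (fun _ _ => Finset.mem_univ _)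
      ⟨χ 1, Finset.mem_univ _⟩ (by rw [Finset.card_fin, hX₁c])
    refine ⟨c, _, hc, _, hc', ?_⟩
    rintro x hx b ⟨hb, hb'⟩
    rw [Finset.mem_filter] at hx
    refine ⟨hXB x (hX₁ hx.1) b hb, ?_⟩
    have h1 : (fun x : X₁ => χ (x * b)) = e.symm c' := by
      rw [← hb', Equiv.symm_apply_apply]
    have h2 : w x = e.symm c' ⟨x, hx.1⟩ := dif_pos hx.1
    rw [← hx.2, h2, ← h1]

/-- boxes contain boxes of constant rank -/
theorem filt (l : ℕ) : ∀ t' : ℕ, ∃ t, ∀ (I : Type u) [LinearOrder I] (K : Subgroup G) (Kf : I → Subgroup G)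
    (r : G → I), (∀ g ∈ K, ∀ i, g ∈ Kf i ↔ r g ≤ i) → ∀ B : Set G, B ⊆ K → Box (l + 1) t B →
      ∃ ξ, Box l t' {b | b ∈ B ∧ r b = ξ} := by
  classical
  induction l with
  | zero =>
    intro t'
    refine ⟨1, fun I _ K Kf r hr B hBK hB => ?_⟩
    obtain ⟨b, hb⟩ := hB.nonempty le_rfl
    exact ⟨r b, b, hb, rfl⟩
  | succ l ih =>
    intro t'
    obtain ⟨T, hT⟩ := ih t'
    obtain ⟨tA, htA⟩ := color (G := G) (l + 1) 3 (max t' T)
    refine ⟨max (max t' 1) tA, fun I _ K Kf r hr B hBK hB => ?_⟩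
    obtain ⟨X, hX, B', hB', hXB⟩ := hB
    have hX1 : 1 ≤ X.card := ((le_max_right t' 1).trans (le_max_left _ _)).trans hX
    have hXt : t' ≤ X.card := ((le_max_left t' 1).trans (le_max_left _ _)).trans hX
    obtain ⟨x₀, hx₀⟩ := Finset.card_pos.1 hX1
    obtain ⟨b₀, hb₀⟩ := hB'.nonempty ((le_max_right t' 1).trans (le_max_left _ _))
    -- ranks
    have hrm : ∀ g ∈ K, g ∈ Kf (r g) := fun g hg => (hr g hg _).2 le_rfl
    have hmul : ∀ x ∈ K, ∀ y ∈ K, r (x * y) ≤ max (r x) (r y) := fun x hx y hy =>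
      (hr _ (mul_mem hx hy) _).1 (mul_mem ((hr x hx _).2 (le_max_left _ _)) ((hr y hy _).2 (le_max_right _ _)))
    have hinv : ∀ x ∈ K, r x⁻¹ ≤ r x := fun x hx => (hr _ (inv_mem hx) _).1 (inv_mem (hrm x hx))
    have hr1 : ∀ x ∈ K, ∀ g ∈ K, r x < r g → r (x * g) = r g := by
      intro x hxK g hgK hx
      apply le_antisymm
      · exact (hmul x hxK g hgK).trans (max_le hx.le le_rfl)
      · by_contra hlt
        push Not at hlt
        have h1 := hmul x⁻¹ (inv_mem hxK) (x * g) (mul_mem hxK hgK)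
        rw [inv_mul_cancel_left] at h1
        exact absurd (h1.trans_lt (max_lt ((hinv x hxK).trans_lt hx) hlt)) (lt_irrefl _)
    have hr2 : ∀ x ∈ K, ∀ g ∈ K, r g < r x → r (x * g) = r x := by
      intro x hxK g hgK hx
      apply le_antisymm
      · exact (hmul x hxK g hgK).trans (max_le le_rfl hx.le)
      · by_contra hlt
        push Not at hlt
        have h1 := hmul (x * g) (mul_mem hxK hgK) g⁻¹ (inv_mem hgK)
        rw [mul_inv_cancel_right] at h1
        exact absurd (h1.trans_lt (max_lt hlt ((hinv g hgK).trans_lt hx))) (lt_irrefl _)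
    -- normalise
    let U : Set G := (fun b => x₀ * b * 1) '' B'
    let Y : Finset G := X.image (fun x => x * x₀⁻¹)
    have hU : Box (l + 1) (max (max t' 1) tA) U := hB'.trans x₀ 1
    have hYc : Y.card = X.card := Finset.card_image_of_injective _ (mul_left_injective _)
    have hYU : ∀ y ∈ Y, ∀ u ∈ U, y * u ∈ B := by
      rintro _ hy _ ⟨b, hb, rfl⟩
      obtain ⟨x, hx, rfl⟩ := Finset.mem_image.1 hy
      have : x * x₀⁻¹ * (x₀ * b * 1) = x * b := by group
      show x * x₀⁻¹ * (x₀ * b * 1) ∈ B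
      rw [this]
      exact hXB x hx b hb
    have hY1 : (1 : G) ∈ Y := Finset.mem_image.2 ⟨x₀, hx₀, mul_inv_cancel x₀⟩
    have hUB : U ⊆ B := fun u hu => by
      have := hYU 1 hY1 u hu
      rwa [one_mul] at this
    have hYK : ∀ y ∈ Y, y ∈ K := by
      intro y hy
      obtain ⟨x, hx, rfl⟩ := Finset.mem_image.1 hy
      have h1 := mul_mem (hBK (hXB x hx b₀ hb₀)) (inv_mem (hBK (hXB x₀ hx₀ b₀ hb₀)))
      have h2 : x * b₀ * (x₀ * b₀)⁻¹ = x * x₀⁻¹ := by group
      rwa [h2] at h1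
    obtain ⟨y₁, hy₁, hmax⟩ := Finset.exists_max_image Y r ⟨1, hY1⟩
    obtain ⟨col, hcol⟩ := htA U (hU.anti (le_max_right _ _))
      (fun u => if r y₁ < r u then 0 else if r u = r y₁ then 1 else 2)
    by_cases h0 : col = 0
    · -- large rank
      subst h0
      have hU0 : Box (l + 1) T {u | u ∈ U ∧ r y₁ < r u} := by
        refine (hcol.anti (le_max_right _ _)).mono ?_
        rintro u ⟨hu, hu'⟩
        refine ⟨hu, ?_⟩
        by_contra hlt
        simp only [if_neg hlt] at hu'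
        split_ifs at hu' <;> exact absurd hu' (by decide)
      obtain ⟨ξ, hξ⟩ := hT I K Kf r hr _ (fun u hu => hBK (hUB hu.1)) hU0
      refine ⟨ξ, Y, by rw [hYc]; exact hXt, _, hξ, ?_⟩
      rintro y hy u ⟨⟨hu, hu'⟩, hu''⟩
      refine ⟨hYU y hy u hu, ?_⟩
      rw [hr1 y (hYK y hy) u (hBK (hUB hu)) ((hmax y hy).trans_lt hu'), hu'']
    by_cases h1 : col = 1
    · subst h1
      refine ⟨r y₁, (hcol.anti (le_max_left _ _)).mono ?_⟩
      rintro u ⟨hu, hu'⟩
      refine ⟨hUB hu, ?_⟩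
      by_contra hne
      by_cases hlt : r y₁ < r u
      · simp only [if_pos hlt] at hu'
        exact absurd hu' (by decide)
      · simp only [if_neg hlt, if_neg hne] at hu'
        exact absurd hu' (by decide)
    · refine ⟨r y₁, ((hcol.anti (le_max_left _ _)).trans y₁ 1).mono ?_⟩
      rintro _ ⟨u, ⟨hu, hu'⟩, rfl⟩
      have hlt : ¬ r y₁ < r u := by
        intro hlt
        simp only [if_pos hlt] at hu'
        exact h0 hu'.symm
      have hne : r u ≠ r y₁ := by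
        intro hne
        simp only [if_neg hlt, if_pos hne] at hu'
        exact h1 hu'.symm
      have hlt' : r u < r y₁ := lt_of_le_of_ne (not_lt.1 hlt) hne
      show y₁ * u * 1 ∈ B ∧ r (y₁ * u * 1) = r y₁
      rw [mul_one]
      exact ⟨hYU y₁ hy₁ u hu, hr2 y₁ (hYK y₁ hy₁) u (hBK (hUB hu)) hlt'⟩

theorem noBox_of_noThree (S : Set G) (hS : NoThree S) : ¬ Box 2 3 S := by
  rintro ⟨X, hX, B', ⟨Y, hY, B'', ⟨b, hb⟩, hYB⟩, hXB⟩
  obtain ⟨x₁, hx₁, x₂, hx₂, _, _, h12, _, _⟩ := Finset.two_lt_card.1 (show 2 < X.card by omega)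
  obtain ⟨y₁, hy₁, y₂, hy₂, y₃, hy₃, e12, e13, e23⟩ := Finset.two_lt_card.1 (show 2 < Y.card by omega)
  have hd : ∀ y : G, x₂ * x₁⁻¹ * (x₁ * (y * b)) = x₂ * (y * b) := fun y => by group
  refine hS (x₂ * x₁⁻¹) ?_ _ (hXB x₁ hx₁ _ (hYB y₁ hy₁ b hb)) _ (hXB x₁ hx₁ _ (hYB y₂ hy₂ b hb)) _
    (hXB x₁ hx₁ _ (hYB y₃ hy₃ b hb)) (fun h => e12 (mul_right_cancel (mul_left_cancel h)))
    (fun h => e13 (mul_right_cancel (mul_left_cancel h))) (fun h => e23 (mul_right_cancel (mul_left_cancel h)))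
    ?_ ?_ ?_
  · intro h
    exact h12 (mul_inv_eq_one.1 h).symm
  · rw [hd]
    exact hXB x₂ hx₂ _ (hYB y₁ hy₁ b hb)
  · rw [hd]
    exact hXB x₂ hx₂ _ (hYB y₂ hy₂ b hb)
  · rw [hd]
    exact hXB x₂ hx₂ _ (hYB y₃ hy₃ b hb)

theorem exists_robust (H : Subgroup G) (hH : (H : Set G).Infinite) (hHc : (H : Set G).Countable) (n : ℕ) :
    ∃ T : ℕ, ∀ K : Subgroup G, H ≤ K → Cardinal.mk K ≤ Cardinal.aleph n →
      ∃ S : Set G, S ⊆ K ∧ (∀ g ∈ K, ∃ h ∈ H, h * g ∈ S) ∧ ¬ Box (n + 2) T S := by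
  induction n with
  | zero =>
    refine ⟨3, fun K hHK hK => ?_⟩
    have hKc : (K : Set G).Countable := by
      rw [← Cardinal.le_aleph0_iff_set_countable]
      simpa using hK
    obtain ⟨S, h1, h2, h3⟩ := exists_layer (H : Set G) hH (K : Set G) hKc
      (fun h hh g hg => mul_mem (hHK hh) hg)
    exact ⟨S, h1, h2, noBox_of_noThree S h3⟩
  | succ n ih =>
    obtain ⟨T, hT⟩ := ih
    obtain ⟨T', hT'⟩ := filt (G := G) (n + 2) T
    refine ⟨T', fun K hHK hK => ?_⟩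
    have hκ : Cardinal.aleph0 ≤ Cardinal.aleph (n : Ordinal.{u}) := Cardinal.aleph0_le_aleph _
    have hK' : Cardinal.mk K ≤ Order.succ (Cardinal.aleph (n : Ordinal.{u})) := by
      rw [Cardinal.succ_aleph]
      push_cast at hK
      exact hK
    obtain ⟨I, _, Kf, r, h1, h2, h3, h4⟩ := exists_rank H K hHK hHc _ hκ hK'
    choose S hS1 hS2 hS3 using fun i => hT (Kf i) (h2 i) (h4 i)
    refine ⟨_, fun g hg => hg.1, cover_step H K Kf r h1 h2 h3 S hS1 hS2, fun hB => ?_⟩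
    obtain ⟨ξ, hξ⟩ := hT' I K Kf r h1 _ (fun g hg => hg.1) hB
    refine hS3 ξ (hξ.mono ?_)
    rintro g ⟨⟨_, hg⟩, rfl⟩
    exact hg

theorem exists_box [Infinite G] (l t : ℕ) : ∃ F : Finset G, Box l t (F : Set G) := by
  classical
  induction l with
  | zero => exact ⟨{1}, 1, by simp⟩
  | succ l ih =>
    obtain ⟨F, hF⟩ := ih
    obtain ⟨X, hX⟩ := Infinite.exists_subset_card_eq G t
    exact ⟨X * F, X, hX.ge, F, hF, fun x hx b hb => by
      rw [Finset.coe_mul]
      exact Set.mul_mem_mul hx hb⟩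

theorem main_all [Infinite G] (n : ℕ) (hcard : Cardinal.mk G ≤ Cardinal.aleph n) :
    ∃ C S : Set G, C.Countable ∧ SmallSet S ∧ C * S = Set.univ := by
  classical
  let H₀ : Set G := Set.range (Infinite.natEmbedding G)
  have hH₀ : H₀.Infinite := Set.infinite_range_of_injective (Infinite.natEmbedding G).injective
  have hH₀c : H₀.Countable := Set.countable_range _
  let H : Subgroup G := Subgroup.closure H₀
  have hH : (H : Set G).Infinite := hH₀.mono Subgroup.subset_closure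
  have hHc : (H : Set G).Countable := countable_closure _ hH₀c
  obtain ⟨T, hT⟩ := exists_robust H hH hHc n
  obtain ⟨S, -, hS1, hS2⟩ := hT ⊤ le_top ((Cardinal.mk_subtype_le _).trans hcard)
  refine ⟨(H : Set G), S, hHc, ?_, ?_⟩
  swap
  · rw [Set.eq_univ_iff_forall]
    intro g
    obtain ⟨x, hx, hx'⟩ := hS1 g (Subgroup.mem_top g)
    exact Set.mem_mul.2 ⟨x⁻¹, inv_mem hx, x * g, hx', by group⟩
  apply small_of
  intro F
  obtain ⟨t, ht⟩ := color (G := G) (n + 2) F.card T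
  obtain ⟨F', hF'⟩ := exists_box (G := G) (n + 2) (max t 1)
  refine ⟨F', fun g => ?_⟩
  by_contra hcon
  push Not at hcon
  obtain ⟨x₀, hx₀⟩ := hF'.nonempty (le_max_right t 1)
  have hex : ∀ x : G, ∃ f : F, x ∈ F' → (f : G)⁻¹ * (x * g) ∈ S := by
    intro x
    by_cases hx : x ∈ F'
    · obtain ⟨f, hf, hf'⟩ := hcon x hx
      exact ⟨⟨f, hf⟩, fun _ => hf'⟩
    · obtain ⟨f, hf, hf'⟩ := hcon x₀ hx₀
      exact ⟨⟨f, hf⟩, fun h => absurd h hx⟩
  choose φ hφ using hex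
  obtain ⟨c, hc⟩ := ht F' (hF'.anti (le_max_left t 1)) (fun x => F.equivFin (φ x))
  refine hS2 ((hc.trans ((F.equivFin.symm c : F) : G)⁻¹ g).mono ?_)
  rintro _ ⟨x, ⟨hx, hx'⟩, rfl⟩
  have h1 : F.equivFin.symm c = φ x := by
    rw [← hx', Equiv.symm_apply_apply]
  show ((F.equivFin.symm c : F) : G)⁻¹ * x * g ∈ S
  rw [h1, mul_assoc]
  exact hφ x hx

end

end Pool.Agent.Q121.CS
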