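import Pool.Agent.Q121.CS.Alephn

set_option autoImplicit false
set_option linter.unusedSectionVars false

/-! Groups of cardinality less than aleph omega which contain an element of infinite order. -/

namespace Pool.Agent.Q121.CS

open scoped Pointwise Cardinal

universe u

section

variable {G : Type u} [Group G]

theorem mk_closure_le (S : Set G) (κ : Cardinal.{u}) (hκ : Cardinal.aleph0 ≤ κ) (hS : Cardinal.mk S ≤ κ) :
    Cardinal.mk (Subgroup.closure S : Set G) ≤ κ := by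
  rw [FreeGroup.closure_eq_range, MonoidHom.coe_range]
  refine Cardinal.mk_range_le.trans ?_
  rcases isEmpty_or_nonempty S with hne | hne
  · have : Countable (FreeGroup S) := inferInstance
    exact (Cardinal.mk_le_aleph0_iff.2 this).trans hκ
  · rw [Cardinal.mk_freeGroup]
    exact max_le hS hκ

theorem exists_rank (H K : Subgroup G) (hHK : H ≤ K) (hHc : (H : Set G).Countable) (κ : Cardinal.{u})
    (hκ : Cardinal.aleph0 ≤ κ) (hK : Cardinal.mk K ≤ Order.succ κ) :
    ∃ (I : Type u) (_ : LinearOrder I) (Kf : I → Subgroup G) (r : G → I),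
      (∀ g ∈ K, ∀ i, g ∈ Kf i ↔ r g ≤ i) ∧ (∀ i, H ≤ Kf i) ∧ (∀ i, Kf i ≤ K) ∧
      ∀ i, Cardinal.mk (Kf i) ≤ κ := by
  classical
  let I : Type u := (Order.succ κ).ord.ToType
  have hI : Cardinal.mk I = Order.succ κ := Cardinal.mk_ord_toType _
  obtain ⟨e⟩ : Nonempty (K ↪ I) := by
    rw [← Cardinal.le_def, hI]
    exact hK
  have hIio : ∀ i : I, Cardinal.mk (Set.Iic i) ≤ κ := by
    intro i
    have h1 : Cardinal.mk (Set.Iio i) ≤ κ := by
      have h2 := Cardinal.mk_Iio_lt i (by rw [hI]; simp [I])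
      rw [hI] at h2
      exact Order.lt_succ_iff.1 h2
    have h2 : Set.Iic i = insert i (Set.Iio i) := by
      ext x
      rw [Set.mem_Iic, Set.mem_insert_iff, Set.mem_Iio, le_iff_eq_or_lt]
    rw [h2]
    refine (Cardinal.mk_insert_le).trans ?_
    exact Cardinal.add_le_of_le hκ h1 (Cardinal.one_le_aleph0.trans hκ)
  let T : I → Set G := fun i => {x | ∃ hx : x ∈ K, e ⟨x, hx⟩ ≤ i}
  have hT : ∀ i, Cardinal.mk (T i) ≤ κ := by
    intro i
    refine le_trans ?_ (hIio i)
    let f : T i → Set.Iic i := fun x => ⟨e ⟨x.1, x.2.choose⟩, x.2.choose_spec⟩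
    refine Cardinal.mk_le_of_injective (f := f) ?_
    intro x y hxy
    have h1 : e ⟨x.1, x.2.choose⟩ = e ⟨y.1, y.2.choose⟩ := congrArg Subtype.val hxy
    have h2 := e.injective h1
    exact Subtype.ext (Subtype.mk.inj h2)
  let Kf : I → Subgroup G := fun i => Subgroup.closure ((H : Set G) ∪ T i)
  have hKm : ∀ i j, i ≤ j → Kf i ≤ Kf j := fun i j hij =>
    Subgroup.closure_mono (Set.union_subset_union_right _ (fun x ⟨hx, hx'⟩ => ⟨hx, le_trans hx' hij⟩))
  have hex : ∀ g ∈ K, {i | g ∈ Kf i}.Nonempty := fun g hg =>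
    ⟨e ⟨g, hg⟩, Subgroup.subset_closure (Or.inr ⟨hg, le_rfl⟩)⟩
  let r : G → I := fun g => if h : {i | g ∈ Kf i}.Nonempty then wellFounded_lt.min {i | g ∈ Kf i} h
    else e ⟨1, K.one_mem⟩
  have hr : ∀ g (hg : g ∈ K), r g = wellFounded_lt.min {i | g ∈ Kf i} (hex g hg) := fun g hg =>
    dif_pos (hex g hg)
  refine ⟨I, inferInstance, Kf, r, ?_, ?_, ?_, ?_⟩
  · intro g hg i
    rw [hr g hg]
    constructor
    · intro h
      exact wellFounded_lt.min_le (s := {i | g ∈ Kf i}) h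
    · intro h
      exact hKm _ _ h (wellFounded_lt.min_mem {i | g ∈ Kf i} (hex g hg))
  · intro i h hh
    exact Subgroup.subset_closure (Or.inl hh)
  · intro i
    rw [Subgroup.closure_le]
    rintro x (hx | ⟨hx, -⟩)
    · exact hHK hx
    · exact hx
  · intro i
    refine mk_closure_le _ κ hκ ?_
    refine (Cardinal.mk_union_le _ _).trans ?_
    exact Cardinal.add_le_of_le hκ ((Cardinal.le_aleph0_iff_set_countable.2 hHc).trans hκ) (hT i)

/-- lifting sets of representatives along a rank function -/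
theorem cover_step {I : Type u} [LinearOrder I] (H K : Subgroup G) (Kf : I → Subgroup G) (r : G → I)
    (hr : ∀ g ∈ K, ∀ i, g ∈ Kf i ↔ r g ≤ i) (hH : ∀ i, H ≤ Kf i) (hK : ∀ i, Kf i ≤ K) (S : I → Set G)
    (hS : ∀ i, S i ⊆ Kf i) (hS' : ∀ i, ∀ g ∈ Kf i, ∃ h ∈ H, h * g ∈ S i) :
    ∀ g ∈ K, ∃ h ∈ H, h * g ∈ {g | g ∈ K ∧ g ∈ S (r g)} := by
  intro g hg
  have h1 : g ∈ Kf (r g) := (hr g hg _).2 le_rfl
  obtain ⟨h, hh, hh'⟩ := hS' (r g) g h1
  have h2 : h * g ∈ Kf (r g) := hS _ hh'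
  have h3 : h * g ∈ K := hK _ h2
  have h4 : r (h * g) ≤ r g := (hr _ h3 _).1 h2
  have h5 : r g ≤ r (h * g) := by
    rw [← hr g hg]
    have h6 : h * g ∈ Kf (r (h * g)) := (hr _ h3 _).2 le_rfl
    have h7 := mul_mem (inv_mem (hH (r (h * g)) hh)) h6
    rwa [inv_mul_cancel_left] at h7
  refine ⟨h, hh, h3, ?_⟩
  rw [le_antisymm h4 h5]
  exact hh'

theorem exists_sparse (H : Subgroup G) (hH : (H : Set G).Infinite) (hHc : (H : Set G).Countable) (n : ℕ) :
    ∃ b, LittleO b ∧ ∀ K : Subgroup G, H ≤ K → Cardinal.mk K ≤ Cardinal.aleph n →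
      ∃ S : Set G, S ⊆ K ∧ (∀ g ∈ K, ∃ h ∈ H, h * g ∈ S) ∧ Sparse K S b := by
  induction n with
  | zero =>
    refine ⟨_, littleO_base, fun K hHK hK => ?_⟩
    have hKc : (K : Set G).Countable := by
      rw [← Cardinal.le_aleph0_iff_set_countable]
      simpa using hK
    obtain ⟨S, h1, h2, h3⟩ := exists_layer (H : Set G) hH (K : Set G) hKc
      (fun h hh g hg => mul_mem (hHK hh) hg)
    exact ⟨S, h1, h2, sparse_of_noThree K S h3⟩
  | succ n ih =>
    obtain ⟨b, hb, hb'⟩ := ih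
    refine ⟨next b, hb.next, fun K hHK hK => ?_⟩
    have hκ : Cardinal.aleph0 ≤ Cardinal.aleph (n : Ordinal.{u}) := Cardinal.aleph0_le_aleph _
    have hK' : Cardinal.mk K ≤ Order.succ (Cardinal.aleph (n : Ordinal.{u})) := by
      rw [Cardinal.succ_aleph]
      push_cast at hK
      exact hK
    obtain ⟨I, _, Kf, r, h1, h2, h3, h4⟩ := exists_rank H K hHK hHc _ hκ hK'
    choose S hS1 hS2 hS3 using fun i => hb' (Kf i) (h2 i) (h4 i)
    exact ⟨_, fun g hg => hg.1, cover_step H K Kf r h1 h2 h3 S hS1 hS2, sparse_step K Kf r h1 b S hS3⟩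

theorem main_aleph (n : ℕ) (hcard : Cardinal.mk G ≤ Cardinal.aleph n) (h : G)
    (hh : ∀ i : ℕ, 0 < i → h ^ i ≠ 1) : ∃ C S : Set G, C.Countable ∧ SmallSet S ∧ C * S = Set.univ := by
  classical
  have hH : (Subgroup.zpowers h : Set G).Infinite := by
    have h1 : Function.Injective (fun i : ℕ => h ^ i) := by
      intro i j hij
      by_contra hne
      apply zpow_ne_one hh (z := (i : ℤ) - j) (by omega)
      have h2 : h ^ i = h ^ j := hij
      rw [zpow_sub, zpow_natCast, zpow_natCast, h2, mul_inv_cancel]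
    refine (Set.infinite_range_of_injective h1).mono ?_
    rintro _ ⟨i, rfl⟩
    exact Subgroup.pow_mem _ (Subgroup.mem_zpowers h) i
  have hHc : (Subgroup.zpowers h : Set G).Countable := by
    have : (Subgroup.zpowers h : Set G) = Set.range (fun z : ℤ => h ^ z) := by
      ext x
      exact Subgroup.mem_zpowers_iff
    rw [this]
    exact Set.countable_range _
  obtain ⟨b, hb, hb'⟩ := exists_sparse (Subgroup.zpowers h) hH hHc n
  obtain ⟨S, -, hS1, hS2⟩ := hb' ⊤ le_top (by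
    refine (Cardinal.mk_subtype_le _).trans hcard)
  refine ⟨(Subgroup.zpowers h : Set G), S, hHc, ?_, ?_⟩
  swap
  · rw [Set.eq_univ_iff_forall]
    intro g
    obtain ⟨x, hx, hx'⟩ := hS1 g (Subgroup.mem_top g)
    exact Set.mem_mul.2 ⟨x⁻¹, inv_mem hx, x * g, hx', by group⟩
  apply small_of
  intro F
  obtain ⟨m, hm⟩ := hb (F.card + 1)
  have hm' : F.card * b m < 2 ^ m := by
    have h1 := hm m le_rfl
    rw [add_mul, one_mul] at h1
    rcases Nat.eq_zero_or_pos (b m) with h2 | h2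
    · rw [h2, mul_zero]
      positivity
    · omega
  refine ⟨(Finset.range (2 ^ m)).image (fun i => h ^ i), fun g => ?_⟩
  by_contra hcon
  push Not at hcon
  have h1 : Finset.range (2 ^ m) ⊆ F.biUnion (fun f => (Finset.range (2 ^ m)).filter
      (fun i => f⁻¹ * (h ^ i * g) ∈ S)) := by
    intro i hi
    obtain ⟨f, hf, hf'⟩ := hcon (h ^ i) (Finset.mem_image_of_mem _ hi)
    exact Finset.mem_biUnion.2 ⟨f, hf, Finset.mem_filter.2 ⟨hi, hf'⟩⟩
  have h2 : ∀ f ∈ F, ((Finset.range (2 ^ m)).filter (fun i => f⁻¹ * (h ^ i * g) ∈ S)).card ≤ b m := by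
    intro f _
    refine hS2 (f⁻¹ * h * f) (Subgroup.mem_top _) ?_ (f⁻¹ * g) (Subgroup.mem_top _) m _ ?_
    · intro i hi h3
      apply hh i hi
      have h4 : (f⁻¹ * h * f) ^ i = f⁻¹ * h ^ i * f := by
        have := conj_pow (i := i) (a := f⁻¹) (b := h)
        rwa [inv_inv] at this
      rw [h4] at h3
      have h5 : h ^ i = f * (f⁻¹ * h ^ i * f) * f⁻¹ := by group
      rw [h5, h3]
      group
    · intro i hi
      rw [Finset.mem_filter, Finset.mem_range] at hi
      refine ⟨hi.1, ?_⟩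
      have h4 : (f⁻¹ * h * f) ^ i = f⁻¹ * h ^ i * f := by
        have := conj_pow (i := i) (a := f⁻¹) (b := h)
        rwa [inv_inv] at this
      rw [h4]
      have h5 : f⁻¹ * h ^ i * f * (f⁻¹ * g) = f⁻¹ * (h ^ i * g) := by group
      rw [h5]
      exact hi.2
  have h3 := (Finset.card_le_card h1).trans (Finset.card_biUnion_le_card_mul _ _ _ h2)
  rw [Finset.card_range] at h3
  omega

end

end Pool.Agent.Q121.CS
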