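import Pool.Agent.Q121.CS.Basic

set_option autoImplicit false
set_option linter.unusedSectionVars false

/-! Groups of cardinality at most aleph one are products of a countable and a small set. -/

namespace Pool.Agent.Q121.CS

open scoped Pointwise

universe u

section

variable {G : Type u} [Group G]

/-- The main step, for a rank function with values in a linear order. -/
theorem main_rank {I : Type u} [LinearOrder I] [Nonempty I] (r : G → I)
    (hmul : ∀ x y, r (x * y) ≤ max (r x) (r y)) (hinv : ∀ x, r x⁻¹ = r x)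
    (hcount : ∀ i, {x | r x = i}.Countable) (hunb : ∀ i, ∃ p, i < r p)
    (H : Set G) (hH : H.Infinite) (hHc : H.Countable) (hHinv : ∀ h ∈ H, h⁻¹ ∈ H)
    (hHr : ∀ h ∈ H, ∀ g, r h ≤ r g) :
    ∃ C S : Set G, C.Countable ∧ SmallSet S ∧ C * S = Set.univ := by
  classical
  -- the rank of products
  have hr1 : ∀ x g, r x < r g → r (x * g) = r g := by
    intro x g hx
    apply le_antisymm
    · exact (hmul x g).trans (max_le hx.le le_rfl)
    · by_contra hlt
      push Not at hlt
      have h1 := hmul x⁻¹ (x * g)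
      rw [inv_mul_cancel_left, hinv] at h1
      exact absurd (h1.trans_lt (max_lt hx hlt)) (lt_irrefl _)
  have hr2 : ∀ x g, r g < r x → r (x * g) = r x := by
    intro x g hx
    apply le_antisymm
    · exact (hmul x g).trans (max_le le_rfl hx.le)
    · by_contra hlt
      push Not at hlt
      have h1 := hmul (x * g) g⁻¹
      rw [mul_inv_cancel_right, hinv] at h1
      exact absurd (h1.trans_lt (max_lt hlt hx)) (lt_irrefl _)
  have hrH : ∀ h ∈ H, ∀ g, r (h * g) = r g := by
    intro h hh g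
    rcases (hHr h hh g).lt_or_eq with h1 | h1
    · exact hr1 h g h1
    · apply le_antisymm
      · exact (hmul h g).trans (max_le h1.le le_rfl)
      · rw [← h1]
        exact hHr h hh _
  -- the layers
  choose T hT1 hT2 hT3 using fun i => exists_layer H hH {x | r x = i} (hcount i)
    (fun h hh g (hg : r g = i) => ((hrH h hh g).trans hg : r (h * g) = i))
  let S : Set G := ⋃ i, T i
  have hS : ∀ g, g ∈ S → g ∈ T (r g) := by
    intro g hg
    obtain ⟨i, hi⟩ := Set.mem_iUnion.1 hg
    have h1 : r g = i := hT1 i hi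
    rw [h1]
    exact hi
  refine ⟨H, S, hHc, ?_, ?_⟩
  swap
  · rw [Set.eq_univ_iff_forall]
    intro g
    obtain ⟨h, hh, hh'⟩ := hT2 (r g) g rfl
    exact Set.mem_mul.2 ⟨h⁻¹, hHinv h hh, h * g, Set.mem_iUnion.2 ⟨_, hh'⟩, by group⟩
  apply small_of
  intro F
  -- the finite sets
  obtain ⟨A, hAH, hA⟩ := hH.exists_subset_card_eq (F.card + 1)
  obtain ⟨B, hBH, hB⟩ := hH.exists_subset_card_eq ((A ×ˢ A ×ˢ F).card * 2 + 1)
  obtain ⟨i₀, hi₀⟩ : ∃ i₀, ∀ f ∈ F, r f ≤ i₀ := by
    obtain ⟨i₀, hi₀⟩ := (F.image r).exists_le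
    exact ⟨i₀, fun f hf => hi₀ _ (Finset.mem_image_of_mem r hf)⟩
  obtain ⟨p, hp⟩ := hunb i₀
  have core : ∀ g, i₀ < r g → ∃ x ∈ A * B, ∀ f ∈ F, f⁻¹ * (x * g) ∉ S := by
    intro g hg
    by_contra hcon
    push Not at hcon
    -- choose the element of `F`
    have h1 : ∀ a ∈ A, ∀ b ∈ B, ∃ f ∈ F, f⁻¹ * (a * b * g) ∈ S := fun a ha b hb =>
      hcon (a * b) (Finset.mul_mem_mul ha hb)
    have h2 : ∀ b ∈ B, ∃ y ∈ A ×ˢ A ×ˢ F, y.1 ≠ y.2.1 ∧ y.2.2⁻¹ * (y.1 * b * g) ∈ S ∧
        y.2.2⁻¹ * (y.2.1 * b * g) ∈ S := by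
      intro b hb
      choose! φ hφ1 hφ2 using fun a (ha : a ∈ A) => h1 a ha b hb
      obtain ⟨a, ha, a', ha', hne, he⟩ := Finset.exists_ne_map_eq_of_card_lt_of_maps_to
        (by rw [hA]; exact Nat.lt_succ_self _ : F.card < A.card) (f := φ) (fun a ha => hφ1 a ha)
      refine ⟨(a, a', φ a), Finset.mem_product.2 ⟨ha, Finset.mem_product.2 ⟨ha', hφ1 a ha⟩⟩, hne,
        hφ2 a ha, ?_⟩
      show (φ a)⁻¹ * (a' * b * g) ∈ S
      rw [he]
      exact hφ2 a' ha'
    choose! ψ hψ1 hψ2 using h2
    obtain ⟨⟨a, a', f⟩, hy, hcard⟩ := Finset.exists_lt_card_fiber_of_mul_lt_card_of_maps_to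
      (fun b hb => hψ1 b hb) (by rw [hB]; exact Nat.lt_succ_self _ : (A ×ˢ A ×ˢ F).card * 2 < B.card)
    rw [Finset.two_lt_card] at hcard
    obtain ⟨b₁, hb₁, b₂, hb₂, b₃, hb₃, h12, h13, h23⟩ := hcard
    rw [Finset.mem_filter] at hb₁ hb₂ hb₃
    simp only [Finset.mem_product] at hy
    have key : ∀ b, b ∈ B ∧ ψ b = (a, a', f) → f⁻¹ * (a * b * g) ∈ T (r g) ∧
        (f⁻¹ * a' * a⁻¹ * f) * (f⁻¹ * (a * b * g)) ∈ T (r g) := by
      rintro b ⟨hb, hb'⟩
      have h3 := hψ2 b hb
      rw [hb'] at h3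
      have hf : r f⁻¹ < r g := by
        rw [hinv]
        exact (hi₀ f hy.2.2).trans_lt hg
      have hrr : ∀ c ∈ A, r (f⁻¹ * (c * b * g)) = r g := by
        intro c hc
        have e : r (c * b * g) = r g := by
          rw [mul_assoc, hrH c (hAH hc), hrH b (hBH hb)]
        rw [hr1 _ _ (by rw [e]; exact hf), e]
      constructor
      · have := hS _ h3.2.1
        rwa [hrr a hy.1] at this
      · have h4 := hS _ h3.2.2
        rw [hrr a' hy.2.1] at h4
        have e : (f⁻¹ * a' * a⁻¹ * f) * (f⁻¹ * (a * b * g)) = f⁻¹ * (a' * b * g) := by group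
        rw [e]
        exact h4
    have hne : a ≠ a' := by
      have := (hψ2 b₁ hb₁.1).1
      rw [hb₁.2] at this
      exact this
    refine hT3 (r g) (f⁻¹ * a' * a⁻¹ * f) ?_ _ (key b₁ hb₁).1 _ (key b₂ hb₂).1 _ (key b₃ hb₃).1
      ?_ ?_ ?_ (key b₁ hb₁).2 (key b₂ hb₂).2 (key b₃ hb₃).2
    · intro h
      apply hne
      have h3 : a' = a := by
        have : a' = f * (f⁻¹ * a' * a⁻¹ * f) * f⁻¹ * a := by group
        rw [this, h]
        group
      exact h3.symm
    · exact fun h => h12 (mul_left_cancel (mul_right_cancel (mul_left_cancel h)))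
    · exact fun h => h13 (mul_left_cancel (mul_right_cancel (mul_left_cancel h)))
    · exact fun h => h23 (mul_left_cancel (mul_right_cancel (mul_left_cancel h)))
  refine ⟨A * B ∪ (A * B).image (fun x => x * p), fun g => ?_⟩
  by_cases hg : i₀ < r g
  · obtain ⟨x, hx, hx'⟩ := core g hg
    exact ⟨x, Finset.mem_union_left _ hx, hx'⟩
  · have hpg : r (p * g) = r p := hr2 p g (lt_of_le_of_lt (not_lt.1 hg) hp)
    obtain ⟨x, hx, hx'⟩ := core (p * g) (by rw [hpg]; exact hp)
    refine ⟨x * p, Finset.mem_union_right _ (Finset.mem_image_of_mem _ hx), fun f hf => ?_⟩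
    rw [mul_assoc]
    exact hx' f hf

theorem main (hG : Infinite G) (hcard : Cardinal.mk G ≤ Cardinal.aleph 1) :
    ∃ C S : Set G, C.Countable ∧ SmallSet S ∧ C * S = Set.univ := by
  classical
  by_cases hc : Countable G
  · refine ⟨Set.univ, {1}, Set.countable_univ, ?_, ?_⟩
    · apply small_of
      intro F
      obtain ⟨F', hF'⟩ := Infinite.exists_subset_card_eq G (F.card + 1)
      refine ⟨F', fun g => ?_⟩
      by_contra hcon
      push Not at hcon
      have h1 : F'.image (fun x => x * g) ⊆ F := by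
        intro y hy
        obtain ⟨x, hx, rfl⟩ := Finset.mem_image.1 hy
        obtain ⟨f, hf, hf'⟩ := hcon x hx
        rw [Set.mem_singleton_iff, inv_mul_eq_one] at hf'
        rw [← hf']
        exact hf
      have h2 := Finset.card_le_card h1
      rw [Finset.card_image_of_injective _ (mul_left_injective g), hF'] at h2
      omega
    · rw [Set.eq_univ_iff_forall]
      intro g
      exact Set.mem_mul.2 ⟨g, Set.mem_univ g, 1, rfl, mul_one g⟩
  · let I : Type u := (Cardinal.aleph 1 : Cardinal.{u}).ord.ToType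
    have hI : Cardinal.mk I = Cardinal.aleph 1 := Cardinal.mk_ord_toType _
    obtain ⟨e⟩ : Nonempty (G ↪ I) := by
      rw [← Cardinal.le_def, hI]
      exact hcard
    have hIio : ∀ i : I, (Set.Iic i).Countable := by
      intro i
      have h1 : (Set.Iio i).Countable := by
        have h2 := Cardinal.mk_Iio_lt i (by rw [hI]; simp [I])
        rw [hI] at h2
        have h3 : Cardinal.mk (Set.Iio i) < Order.succ Cardinal.aleph0 := h2.trans_eq Cardinal.succ_aleph0.symm
        exact Cardinal.le_aleph0_iff_set_countable.1 (Order.lt_succ_iff.1 h3)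
      have h2 : Set.Iic i = insert i (Set.Iio i) := by
        ext x
        rw [Set.mem_Iic, Set.mem_insert_iff, Set.mem_Iio, le_iff_eq_or_lt]
      rw [h2]
      exact h1.insert i
    let H₀ : Set G := Set.range (Infinite.natEmbedding G)
    have hH₀ : H₀.Infinite := Set.infinite_range_of_injective (Infinite.natEmbedding G).injective
    have hH₀c : H₀.Countable := Set.countable_range _
    let K : I → Subgroup G := fun i => Subgroup.closure (H₀ ∪ {x | e x ≤ i})
    have hK : ∀ g, g ∈ K (e g) := fun g => Subgroup.subset_closure (Or.inr (show e g ≤ e g from le_rfl))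
    have hKm : ∀ i j, i ≤ j → K i ≤ K j := fun i j hij =>
      Subgroup.closure_mono (Set.union_subset_union_right _ (fun x hx => le_trans hx hij))
    have hKc : ∀ i, (K i : Set G).Countable := fun i =>
      countable_closure _ (hH₀c.union ((hIio i).preimage_of_injOn e.injective.injOn))
    have hHK : ∀ i, Subgroup.closure H₀ ≤ K i := fun i => Subgroup.closure_mono Set.subset_union_left
    have hex : ∀ g, {i | g ∈ K i}.Nonempty := fun g => ⟨e g, hK g⟩
    let r : G → I := fun g => wellFounded_lt.min {i | g ∈ K i} (hex g)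
    have hr1 : ∀ g, g ∈ K (r g) := fun g => wellFounded_lt.min_mem {i | g ∈ K i} (hex g)
    have hr2 : ∀ g i, g ∈ K i → r g ≤ i := fun g i hg => wellFounded_lt.min_le (s := {i | g ∈ K i}) hg
    have hne : Nonempty I := ⟨e 1⟩
    have hinv : ∀ x, r x⁻¹ ≤ r x := fun x => hr2 _ _ ((K (r x)).inv_mem (hr1 x))
    refine main_rank r ?_ ?_ ?_ ?_ (Subgroup.closure H₀ : Set G) ?_ (countable_closure _ hH₀c) ?_ ?_
    · intro x y
      exact hr2 _ _ ((K _).mul_mem (hKm _ _ (le_max_left _ _) (hr1 x)) (hKm _ _ (le_max_right _ _) (hr1 y)))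
    · intro x
      apply le_antisymm (hinv x)
      have := hinv x⁻¹
      rwa [inv_inv] at this
    · intro i
      refine (hKc i).mono ?_
      rintro x rfl
      exact hr1 x
    · intro i
      by_contra hcon
      push Not at hcon
      apply hc
      have h1 : (K i : Set G) = Set.univ := by
        rw [Set.eq_univ_iff_forall]
        intro x
        exact hKm _ _ (hcon x) (hr1 x)
      have h2 := hKc i
      rw [h1] at h2
      exact Set.countable_univ_iff.1 h2
    · exact hH₀.mono Subgroup.subset_closure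
    · exact fun h hh => (Subgroup.closure H₀).inv_mem hh
    · exact fun h hh g => hr2 _ _ (hHK _ hh)

end

end Pool.Agent.Q121.CS
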